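import Pool.Agent.Helper11.QU.Core

/-!
# T-QUAD: a prime of the base which divides the Gram determinants of generic vectors
-/

set_option autoImplicit false

namespace Pool.Agent.Helper11.QU

open Matrix MvPolynomial

/-- a prime element is the kernel of a homomorphism to a field -/
theorem exists_field {R : Type} [CommRing R] (P : R) (hP : Prime P) (k : Type) [Field k]
    [Algebra k R] : ∃ (F : Type) (_ : Field F) (_ : Algebra k F) (ρ : R →ₐ[k] F),
      ∀ x, ρ x = 0 ↔ P ∣ x := by
  have h1 : (Ideal.span ({P} : Set R)).IsPrime := (Ideal.span_singleton_prime hP.ne_zero).2 hP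
  refine ⟨FractionRing (R ⧸ Ideal.span ({P} : Set R)), inferInstance, inferInstance,
    (IsScalarTower.toAlgHom k (R ⧸ Ideal.span ({P} : Set R))
      (FractionRing (R ⧸ Ideal.span ({P} : Set R)))).comp
      (Ideal.Quotient.mkₐ k (Ideal.span ({P} : Set R))), fun x => ?_⟩
  rw [AlgHom.comp_apply, IsScalarTower.coe_toAlgHom', Ideal.Quotient.mkₐ_eq_mk,
    FaithfulSMul.algebraMap_eq_zero_iff, Ideal.Quotient.eq_zero_iff_mem,
    Ideal.mem_span_singleton]

end Pool.Agent.Helper11.QU
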