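import Pool.Agent.Helper11.QU.P2
import Pool.Agent.Helper11.QU.Prime

/-!
# T-QUAD, piece P3
-/

set_option autoImplicit false

namespace Pool.Agent.Helper11.QU

open Matrix Pool.Agent.Helper49.QU

theorem map_bil {R R' : Type*} [CommRing R] [CommRing R'] {M : ℕ} (φ : R →+* R')
    (B : Matrix (Fin M) (Fin M) R) (v w : Fin M → R) :
    φ (bil B v w) = bil (B.map φ) (fun j => φ (v j)) (fun j => φ (w j)) := by
  unfold bil
  simp only [map_sum, map_mul, Matrix.map_apply]

theorem map_D1 {R R' : Type*} [CommRing R] [CommRing R'] {M : ℕ} (φ : R →+* R')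
    (B : Matrix (Fin M) (Fin M) R) (v : Fin 3 → Fin M → R) :
    φ (D1 B v) = D1 (B.map φ) (fun c j => φ (v c j)) := map_bil φ B _ _

theorem map_D2 {R R' : Type*} [CommRing R] [CommRing R'] {M : ℕ} (φ : R →+* R')
    (B : Matrix (Fin M) (Fin M) R) (v : Fin 3 → Fin M → R) :
    φ (D2 B v) = D2 (B.map φ) (fun c j => φ (v c j)) := by
  unfold D2
  simp only [map_sub, map_mul, map_pow, map_bil]

theorem map_D3 {R R' : Type*} [CommRing R] [CommRing R'] {M : ℕ} (φ : R →+* R')
    (B : Matrix (Fin M) (Fin M) R) (v : Fin 3 → Fin M → R) :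
    φ (D3 B v) = D3 (B.map φ) (fun c j => φ (v c j)) := by
  unfold D3
  rw [RingHom.map_det]
  congr 1
  ext c d
  exact map_bil φ B _ _

/-- the Gram minors of orthogonal anisotropic vectors do not vanish -/
theorem D_ne_zero {F : Type*} [Field F] {M : ℕ} (B : Matrix (Fin M) (Fin M) F)
    (V : Fin 3 → Fin M → F) (h1 : ∀ c, bil B (V c) (V c) ≠ 0)
    (h2 : ∀ c d, c ≠ d → bil B (V c) (V d) = 0) :
    D1 B V ≠ 0 ∧ D2 B V ≠ 0 ∧ D3 B V ≠ 0 := by
  refine ⟨h1 0, ?_, ?_⟩
  · unfold D2
    rw [h2 0 1 (by decide), zero_pow two_ne_zero, sub_zero]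
    exact mul_ne_zero (h1 0) (h1 1)
  · unfold D3
    have h3 : (Matrix.of fun c d : Fin 3 => bil B (V c) (V d)) =
        Matrix.diagonal fun c => bil B (V c) (V c) := by
      ext c d
      rw [Matrix.of_apply, Matrix.diagonal_apply]
      split_ifs with h
      · rw [h]
      · exact h2 c d h
    rw [h3, Matrix.det_diagonal]
    exact Finset.prod_ne_zero_iff.2 fun c _ => h1 c

variable {n r : ℕ} {N : Fin r → ℕ} {k : Type} [Field k]

/-- specialisation of the new polynomial ring: the old variables through `ρ`, the generic vectors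
of index `i` to `V`, the others to zero -/
theorem exists_spec {F : Type} [CommRing F] [Algebra k F] (ρ : MvPolynomial (Fin n) k →ₐ[k] F)
    (V : ∀ i : Fin r, Fin 3 → Fin (N i) → F) :
    ∃ σ : MvPolynomial (Fin (vn N + n)) k →ₐ[k] F,
      (∀ p, σ (inc n N k p) = ρ p) ∧ ∀ i c j, σ (gv n N k i c j) = V i c j := by
  refine ⟨MvPolynomial.aeval (Fin.addCases
    (fun a => V ((Fintype.equivFin (VI N)).symm a).1 ((Fintype.equivFin (VI N)).symm a).2.1
      ((Fintype.equivFin (VI N)).symm a).2.2) (fun j => ρ (MvPolynomial.X j))), ?_, ?_⟩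
  · intro p
    have h1 : (MvPolynomial.aeval (Fin.addCases
      (fun a => V ((Fintype.equivFin (VI N)).symm a).1 ((Fintype.equivFin (VI N)).symm a).2.1
        ((Fintype.equivFin (VI N)).symm a).2.2) (fun j => ρ (MvPolynomial.X j)))).comp
        (inc n N k) = ρ := by
      refine MvPolynomial.algHom_ext fun j => ?_
      rw [AlgHom.comp_apply]
      unfold inc
      rw [MvPolynomial.rename_X, MvPolynomial.aeval_X]
      unfold tix
      rw [Fin.addCases_right]
    exact DFunLike.congr_fun h1 p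
  · intro i c j
    unfold gv
    rw [MvPolynomial.aeval_X]
    unfold vix
    rw [Fin.addCases_left, Equiv.symm_apply_apply]

/-- **P3.** an irreducible polynomial in the old variables which divides a Gram minor divides all
`3 × 3` minors of `B i` -/
theorem minors_of_dvd [CharZero k]
    (B : ∀ i : Fin r, Matrix (Fin (N i)) (Fin (N i)) (MvPolynomial (Fin n) k))
    (hB : ∀ i, (B i).IsSymm) (i : Fin r) (P : MvPolynomial (Fin n) k) (hP : Irreducible P)
    (h : inc n N k P ∣ aQ N B i * bQ N B i) : Minors (B i) P := by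
  classical
  intro f g
  by_contra hfg
  obtain ⟨F, iF, aF, ρ, hρ⟩ := exists_field P hP.prime k
  have hc : CharZero F := charZero_of_injective_algebraMap (algebraMap k F).injective
  have hsym : ((B i).map ρ).IsSymm := (hB i).map ρ
  have hdet : (((B i).map ρ).submatrix f g).det ≠ 0 := by
    have h1 : (((B i).map ρ).submatrix f g).det = ρ ((B i).submatrix f g).det := by
      rw [AlgHom.map_det]
      rfl
    rw [h1]
    exact fun h2 => hfg ((hρ _).1 h2)
  obtain ⟨V, hV1, hV2⟩ := exists_three ((B i).map ρ) hsym f g hdet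
  obtain ⟨hd1, hd2, hd3⟩ := D_ne_zero _ V hV1 hV2
  obtain ⟨σ, hσ1, hσ2⟩ := exists_spec (N := N) ρ
    (fun i' => if h : i' = i then h ▸ V else fun _ _ => 0)
  have hgv : (fun c j => (σ : _ →+* F) (gv n N k i c j)) = V := by
    funext c j
    show σ (gv n N k i c j) = V c j
    rw [hσ2, dif_pos rfl]
  have hm : (incB N B i).map (σ : _ →+* F) = (B i).map ρ := by
    ext j l
    exact hσ1 _
  obtain ⟨q, hq⟩ := h
  have h3 := congrArg (σ : _ →+* F) hq
  unfold aQ bQ qa qb at h3
  rw [map_mul, map_mul, map_neg, map_neg, map_mul, map_mul, map_D1, map_D2, map_D3, hgv, hm] at h3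
  have h4 : (σ : _ →+* F) (inc n N k P) = 0 := by
    show σ (inc n N k P) = 0
    rw [hσ1]
    exact (hρ P).2 dvd_rfl
  rw [h4, zero_mul] at h3
  exact mul_ne_zero (neg_ne_zero.2 hd2)
    (neg_ne_zero.2 (mul_ne_zero (mul_ne_zero hd1 hd2) hd3)) h3

end Pool.Agent.Helper11.QU
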