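import Mathlib

/-!
# T-QUAD: minors of Gram matrices and degrees of Gram determinants
-/

set_option autoImplicit false

namespace Pool.Agent.Helper11.QU

open Matrix MvPolynomial

section CauchyBinet

variable {R : Type*} [CommRing R] {N m : ℕ}

theorem dvd_det_mul (P : R) (X : Matrix (Fin m) (Fin N) R) (Z : Matrix (Fin N) (Fin m) R)
    (h : ∀ f : Fin m → Fin N, P ∣ (Z.submatrix f id).det) : P ∣ (X * Z).det := by
  have h1 : (X * Z).det = ∑ f : Fin m → Fin N, (∏ i, X i (f i)) * (Z.submatrix f id).det := by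
    have h2 : X * Z = fun i => ∑ j, X i j • Z j := by
      funext i k
      rw [Matrix.mul_apply, Finset.sum_apply]
      rfl
    have h3 : (X * Z).det = (Matrix.detRowAlternating (R := R) (n := Fin m)).toMultilinearMap
        (fun i => ∑ j, X i j • Z j) := by
      rw [h2]
      rfl
    rw [h3, MultilinearMap.map_sum]
    refine Finset.sum_congr rfl fun f _ => ?_
    rw [MultilinearMap.map_smul_univ]
    rfl
  rw [h1]
  exact Finset.dvd_sum fun f _ => Dvd.dvd.mul_left (h f) _

/-- if `P` divides all `m × m` minors of `Q`, it divides the determinants of all products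
`X Q Y` of format `m × m` -/
theorem dvd_det_mul_mul (P : R) (Q : Matrix (Fin N) (Fin N) R)
    (h : ∀ f g : Fin m → Fin N, P ∣ (Q.submatrix f g).det)
    (X : Matrix (Fin m) (Fin N) R) (Y : Matrix (Fin N) (Fin m) R) : P ∣ (X * Q * Y).det := by
  rw [Matrix.mul_assoc]
  refine dvd_det_mul P X (Q * Y) fun f => ?_
  have h1 : (Q * Y).submatrix f id = Q.submatrix f id * Y := by
    ext i j
    simp [Matrix.mul_apply]
  rw [h1, ← Matrix.det_transpose, Matrix.transpose_mul]
  refine dvd_det_mul P Yᵀ (Q.submatrix f id)ᵀ fun g => ?_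
  have h2 : ((Q.submatrix f id)ᵀ).submatrix g id = (Q.submatrix f g)ᵀ := by
    ext i j
    rfl
  rw [h2, Matrix.det_transpose]
  exact h f g

end CauchyBinet

section Degree

variable {σ K : Type*} [CommRing K] {N : ℕ}

theorem degreeOf_bil (x : σ) (Q : Fin N → Fin N → MvPolynomial σ K)
    (v w : Fin N → MvPolynomial σ K) (a b : ℕ) (hQ : ∀ j k, degreeOf x (Q j k) = 0)
    (hv : ∀ j, degreeOf x (v j) ≤ a) (hw : ∀ j, degreeOf x (w j) ≤ b) :
    degreeOf x (∑ j, ∑ k, v j * Q j k * w k) ≤ a + b := by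
  refine (degreeOf_sum_le x _ _).trans (Finset.sup_le fun j _ => ?_)
  refine (degreeOf_sum_le x _ _).trans (Finset.sup_le fun k _ => ?_)
  refine (degreeOf_mul_le x _ _).trans ?_
  have h1 := degreeOf_mul_le x (v j) (Q j k)
  have h2 := hv j
  have h3 := hw k
  rw [hQ j k] at h1
  omega

theorem degreeOf_D2 (x : σ) (g11 g12 g22 : MvPolynomial σ K) (a b : ℕ)
    (h11 : degreeOf x g11 ≤ a + a) (h12 : degreeOf x g12 ≤ a + b) (h22 : degreeOf x g22 ≤ b + b) :
    degreeOf x (g11 * g22 - g12 ^ 2) ≤ 2 * (a + b) := by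
  refine (degreeOf_sub_le x _ _).trans (max_le ?_ ?_)
  · have := degreeOf_mul_le x g11 g22
    omega
  · have := degreeOf_pow_le x g12 2
    omega

theorem degreeOf_D3 (x : σ) (g11 g12 g13 g22 g23 g33 : MvPolynomial σ K) (a b c : ℕ)
    (h11 : degreeOf x g11 ≤ a + a) (h12 : degreeOf x g12 ≤ a + b) (h13 : degreeOf x g13 ≤ a + c)
    (h22 : degreeOf x g22 ≤ b + b) (h23 : degreeOf x g23 ≤ b + c) (h33 : degreeOf x g33 ≤ c + c) :
    degreeOf x (g11 * g22 * g33 + 2 * g12 * g23 * g13 - g11 * g23 ^ 2 - g22 * g13 ^ 2 -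
      g33 * g12 ^ 2) ≤ 2 * (a + b + c) := by
  have m := fun p q : MvPolynomial σ K => degreeOf_mul_le x p q
  have e2 : degreeOf x (2 : MvPolynomial σ K) = 0 := by
    have : (2 : MvPolynomial σ K) = C 2 := (map_ofNat C 2).symm
    rw [this, degreeOf_C]
  refine (degreeOf_sub_le x _ _).trans (max_le ((degreeOf_sub_le x _ _).trans
    (max_le ((degreeOf_sub_le x _ _).trans (max_le ((degreeOf_add_le x _ _).trans
      (max_le ?_ ?_)) ?_)) ?_)) ?_)
  · have h1 := m (g11 * g22) g33
    have h2 := m g11 g22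
    omega
  · have h1 := m (2 * g12 * g23) g13
    have h2 := m (2 * g12) g23
    have h3 := m 2 g12
    omega
  · have h1 := m g11 (g23 ^ 2)
    have h2 := degreeOf_pow_le x g23 2
    omega
  · have h1 := m g22 (g13 ^ 2)
    have h2 := degreeOf_pow_le x g13 2
    omega
  · have h1 := m g33 (g12 ^ 2)
    have h2 := degreeOf_pow_le x g12 2
    omega

theorem degreeOf_le_of_dvd [IsDomain K] (x : σ) {P F : MvPolynomial σ K} (hF : F ≠ 0) (h : P ∣ F) :
    degreeOf x P ≤ degreeOf x F := by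
  obtain ⟨G, rfl⟩ := h
  have hP : P ≠ 0 := left_ne_zero_of_mul hF
  have hG : G ≠ 0 := right_ne_zero_of_mul hF
  rw [degreeOf_mul_eq hP hG]
  omega

end Degree

end Pool.Agent.Helper11.QU
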