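import Pool.Agent.Helper49.QU.Defs
import Pool.Agent.Helper11.QU.Core

/-!
# T-QUAD, pieces P2 and P3
-/

set_option autoImplicit false

namespace Pool.Agent.Helper11.QU

open Matrix Pool.Agent.Helper49.QU

variable {n r : ℕ} {N : Fin r → ℕ}

section Gram

variable {k : Type} [Field k]

theorem vix_ne_tix (s : VI N) (j : Fin n) : vix N s ≠ tix N j := by
  intro h
  have h1 := congrArg Fin.val h
  simp only [vix, tix, Fin.val_castAdd, Fin.val_natAdd] at h1
  have h2 := (Fintype.equivFin (VI N) s).2
  omega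

theorem vix_injective : Function.Injective (vix (n := n) N) := by
  intro s t h
  exact (Fintype.equivFin (VI N)).injective (Fin.castAdd_injective _ _ h)

theorem degreeOf_inc (p : MvPolynomial (Fin n) k) (s : VI N) :
    (inc n N k p).degreeOf (vix N s) = 0 := by
  classical
  by_contra h
  have h1 : vix N s ∈ (inc n N k p).vars := MvPolynomial.mem_vars_iff_degreeOf_ne_zero.2 h
  have h2 := MvPolynomial.vars_rename (tix N) p h1
  rw [Finset.mem_image] at h2
  obtain ⟨j, -, hj⟩ := h2
  exact vix_ne_tix s j hj.symm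

theorem degreeOf_gv (i : Fin r) (s : VI N) (c : Fin 3) (j : Fin (N i)) :
    (gv n N k i c j).degreeOf (vix N s) ≤ if c = s.2.1 then 1 else 0 := by
  classical
  unfold gv
  rw [MvPolynomial.degreeOf_X]
  split_ifs with h1 h2 h2
  · exact le_rfl
  · exact absurd (by rw [vix_injective h1]) h2
  · exact Nat.zero_le _
  · exact le_rfl

theorem degreeOf_bil' (B : ∀ i : Fin r, Matrix (Fin (N i)) (Fin (N i)) (MvPolynomial (Fin n) k))
    (i : Fin r) (s : VI N) (c d : Fin 3) :
    (bil (incB N B i) (gv n N k i c) (gv n N k i d)).degreeOf (vix N s) ≤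
      (if c = s.2.1 then 1 else 0) + (if d = s.2.1 then 1 else 0) := by
  unfold bil
  exact degreeOf_bil (vix N s) (incB N B i) _ _ _ _
    (fun j l => degreeOf_inc (B i j l) s) (fun j => degreeOf_gv i s c j)
    (fun j => degreeOf_gv i s d j)

/-- **P2.** the Gram minors have degree at most two in every new variable -/
theorem degreeOf_D (B : ∀ i : Fin r, Matrix (Fin (N i)) (Fin (N i)) (MvPolynomial (Fin n) k))
    (i : Fin r) (s : VI N) :
    (D1 (incB N B i) (gv n N k i)).degreeOf (vix N s) ≤ 2 ∧
    (D2 (incB N B i) (gv n N k i)).degreeOf (vix N s) ≤ 2 ∧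
    (D3 (incB N B i) (gv n N k i)).degreeOf (vix N s) ≤ 2 := by
  have hg := degreeOf_bil' B i s
  set e : Fin 3 → ℕ := fun c => if c = s.2.1 then 1 else 0 with he
  have hg' : ∀ c d, (bil (incB N B i) (gv n N k i c) (gv n N k i d)).degreeOf (vix N s) ≤
      e c + e d := hg
  have hsum : e 0 + e 1 + e 2 ≤ 1 := by
    rw [he]
    generalize s.2.1 = c
    fin_cases c <;> simp
  have h1 : (D1 (incB N B i) (gv n N k i)).degreeOf (vix N s) ≤ 2 := by
    have := hg' 0 0
    unfold D1
    omega
  have h2 : (D2 (incB N B i) (gv n N k i)).degreeOf (vix N s) ≤ 2 := by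
    have := degreeOf_D2 (vix N s) _ _ _ (e 0) (e 1) (hg' 0 0) (hg' 0 1) (hg' 1 1)
    unfold D2
    omega
  refine ⟨h1, h2, ?_⟩
  have m := fun p q : MvPolynomial (Fin (vn N + n)) k =>
    MvPolynomial.degreeOf_mul_le (vix N s) p q
  unfold D3
  rw [Matrix.det_fin_three]
  simp only [Matrix.of_apply]
  have key : ∀ a b c a' b' c' : Fin 3, e a + e b + e c ≤ 1 → e a' + e b' + e c' ≤ 1 →
      (bil (incB N B i) (gv n N k i a) (gv n N k i a') *
        bil (incB N B i) (gv n N k i b) (gv n N k i b') *
        bil (incB N B i) (gv n N k i c) (gv n N k i c')).degreeOf (vix N s) ≤ 2 := by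
    intro a b c a' b' c' h h'
    have h1 := m (bil (incB N B i) (gv n N k i a) (gv n N k i a') *
        bil (incB N B i) (gv n N k i b) (gv n N k i b'))
        (bil (incB N B i) (gv n N k i c) (gv n N k i c'))
    have h2 := m (bil (incB N B i) (gv n N k i a) (gv n N k i a'))
        (bil (incB N B i) (gv n N k i b) (gv n N k i b'))
    have h3 := hg' a a'
    have h4 := hg' b b'
    have h5 := hg' c c'
    omega
  have hs := fun p q : MvPolynomial (Fin (vn N + n)) k =>
    MvPolynomial.degreeOf_sub_le (vix N s) p q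
  have ha := fun p q : MvPolynomial (Fin (vn N + n)) k =>
    MvPolynomial.degreeOf_add_le (vix N s) p q
  refine (hs _ _).trans (max_le ((ha _ _).trans (max_le ((ha _ _).trans (max_le
    ((hs _ _).trans (max_le ((hs _ _).trans (max_le ?_ ?_)) ?_)) ?_)) ?_)) ?_)
  · exact key 0 1 2 0 1 2 (by omega) (by omega)
  · exact key 0 1 2 0 2 1 (by omega) (by omega)
  · exact key 0 1 2 1 0 2 (by omega) (by omega)
  · exact key 0 1 2 1 2 0 (by omega) (by omega)
  · exact key 0 1 2 2 0 1 (by omega) (by omega)
  · exact key 0 1 2 2 1 0 (by omega) (by omega)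

end Gram

end Pool.Agent.Helper11.QU
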